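import Pool.Agent.Helper85_CYD.StG
import Pool.Agent.Helper85_CYD.St1

/-!
# Module EIS of the squad CYD
-/

set_option autoImplicit false

open Polynomial IsLocalRing

namespace Pool.Agent.CYD.H25

theorem eis (hUnr : UnrStmt) (_hSum : SumStmt) : EisStmt := by
  intro n p q g h F K _ _ A c w L hne
  by_contra hcon
  rw [not_or] at hcon
  obtain ⟨hg, hh⟩ := hcon
  have hp := F.hp
  have hq := F.hq
  have hpq := F.hpq
  have : Fact q.Prime := ⟨hq⟩
  have hndvd : ¬ p ∣ q := by
    intro hd
    exact hpq ((Nat.prime_dvd_prime_iff_eq hp hq).1 hd)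
  have hc := L.hc
  have hcq : c ^ q = 1 := hc.pow_eq_one
  -- the residues
  set a : ResidueField A := residue A c with ha
  have haq : a ^ q = 1 := by
    rw [ha, ← map_pow, hcq, map_one]
  have ha0 : a ≠ 0 := by
    intro h0
    rw [h0, zero_pow hq.ne_zero] at haq
    exact zero_ne_one haq
  have hp0 : (p : ResidueField A) = 0 := by
    have := (residue_eq_zero_iff (p : A)).2 L.hm
    rwa [map_natCast] at this
  have hq0 : (q : ResidueField A) ≠ 0 := by
    intro h0
    have hcop : Nat.Coprime p q := (Nat.coprime_primes hp hq).2 hpq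
    obtain ⟨u, v, huv⟩ := (Nat.isCoprime_iff_coprime.2 hcop)
    have : ((u * p + v * q : ℤ) : ResidueField A) = ((1 : ℤ) : ResidueField A) := by rw [huv]
    push_cast at this
    rw [hp0, h0] at this
    simp at this
  have evres : ∀ (f : ℤ[X]) (x : A), residue A (aeval x f) = aeval (residue A x) f := by
    intro f x
    rw [aeval_def, aeval_def, hom_eval₂]
    congr 1
  have hroot : ∀ f : ℤ[X], mu A f c ≠ 0 → aeval a f = 0 := by
    intro f hf
    unfold mu at hf
    have h1 : red (ResidueField A) f ≠ 0 := by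
      intro h0
      rw [h0] at hf
      simp at hf
    have h2 := (rootMultiplicity_pos h1).1 (Nat.pos_of_ne_zero hf)
    rw [IsRoot, red, eval_map] at h2
    rw [aeval_def]
    rw [← h2]
    congr 1
  have hdg := hUnr K A p q c g hp hndvd L.hm hcq (hroot g hg)
  have hdh := hUnr K A p q c h hp hndvd L.hm hcq (hroot h hh)
  obtain ⟨r1, hr1⟩ := hdg
  obtain ⟨r2, hr2⟩ := hdh
  set P : ℤ[X] := cyclotomic q ℤ with hP
  set f : ℤ[X] := cyclotomic n ℤ with hf
  have hexp : expand ℤ p P = f * P := by
    rw [hP, hf, F.hn, mul_comm p q]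
    exact cyclotomic_expand_eq_cyclotomic_mul hp hndvd ℤ
  have hD1 : derivative f * P + f * derivative P =
      expand ℤ p (derivative P) * ((p : ℤ[X]) * X ^ (p - 1)) := by
    rw [← derivative_mul, ← hexp, derivative_expand]
  have hD2 : derivative (derivative f) * P + derivative f * derivative P +
      (derivative f * derivative P + f * derivative (derivative P)) =
      expand ℤ p (derivative (derivative P)) * ((p : ℤ[X]) * X ^ (p - 1)) *
        ((p : ℤ[X]) * X ^ (p - 1)) +
      expand ℤ p (derivative P) * ((p : ℤ[X]) * (((p - 1 : ℕ) : ℤ[X]) * X ^ (p - 1 - 1))) := by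
    have h1 := congrArg derivative hD1
    rw [derivative_add, derivative_mul, derivative_mul, derivative_mul, derivative_expand,
      derivative_natCast_mul, derivative_X_pow] at h1
    rw [h1]
    simp
  -- evaluate
  have hPc : aeval c P = 0 := by
    have := hc.isRoot_cyclotomic hq.pos
    rw [IsRoot, ← map_cyclotomic_int, eval_map] at this
    rw [aeval_def, ← this]
    congr 1
  have hcp : IsPrimitiveRoot (c ^ p) q :=
    hc.pow_of_coprime p ((Nat.coprime_primes hp hq).2 hpq)
  have hPcp : aeval (c ^ p) P = 0 := by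
    have := hcp.isRoot_cyclotomic hq.pos
    rw [IsRoot, ← map_cyclotomic_int, eval_map] at this
    rw [aeval_def, ← this]
    congr 1
  have E1 := congrArg (aeval c) hD1
  have E2 := congrArg (aeval c) hD2
  simp only [map_add, map_mul, expand_aeval, hPc, map_pow, aeval_X, map_natCast, mul_zero,
    zero_add] at E1 E2
  have hF1 : aeval c (derivative f) = (p : A) * (p * (r1 * r2)) := by
    rw [← F.fac, map_mul, hr1, hr2]
    ring
  set x1 : A := aeval c (derivative P) with hx1
  set x2 : A := aeval c (derivative (derivative P)) with hx2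
  set y1 : A := aeval (c ^ p) (derivative P) with hy1
  set y2 : A := aeval (c ^ p) (derivative (derivative P)) with hy2
  set F0 : A := aeval c f with hF0
  have hp2 : 2 ≤ p := hp.two_le
  have hcpow : a ^ (p - 1) = a ^ (p - 1 - 1) * a := by
    rw [← pow_succ]
    congr 1
    omega
  rw [hF1] at E2
  have hpA : (p : A) ≠ 0 := by
    exact_mod_cast hp.ne_zero
  have E3 : (p : A) * ((p : A) * (2 * (r1 * r2) * x1 ^ 2) +
      y1 * c ^ (p - 1) * x2 - (p : A) * (y2 * c ^ (p - 1) * c ^ (p - 1) * x1) -
      y1 * (((p - 1 : ℕ) : A) * c ^ (p - 1 - 1)) * x1) = (p : A) * 0 := by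
    linear_combination x1 * E2 - x2 * E1
  have E4 := mul_left_cancel₀ hpA E3
  have E5 := congrArg (residue A) E4
  have hp1 : ((p - 1 : ℕ) : ResidueField A) = -1 := by
    rw [Nat.cast_sub (by omega), hp0]
    simp
  simp only [map_add, map_sub, map_mul, map_pow, map_natCast, map_zero, hp0, zero_mul, zero_add,
    hp1, sub_zero] at E5
  rw [← ha, hcpow] at E5
  -- the identities for `P`
  have hP1 : P * (X - 1) = X ^ q - 1 := cyclotomic_prime_mul_X_sub_one ℤ q
  have hQ1 : derivative P * (X - 1) + P = ((q : ℕ) : ℤ[X]) * X ^ (q - 1) := by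
    have h1 := congrArg derivative hP1
    rw [derivative_mul, derivative_sub, derivative_sub, derivative_X, derivative_one,
      derivative_X_pow] at h1
    simp only [sub_zero, mul_one] at h1
    rw [h1]
    simp
  have hQ2 : derivative (derivative P) * (X - 1) + 2 * derivative P =
      ((q : ℕ) : ℤ[X]) * (((q - 1 : ℕ) : ℤ[X]) * X ^ (q - 1 - 1)) := by
    have h1 := congrArg derivative hQ1
    rw [derivative_add, derivative_mul, derivative_sub, derivative_X, derivative_one,
      derivative_natCast_mul, derivative_X_pow] at h1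
    simp only [sub_zero, mul_one] at h1
    have h2 : (C ((q - 1 : ℕ) : ℤ) : ℤ[X]) = ((q - 1 : ℕ) : ℤ[X]) := by simp
    rw [h2] at h1
    rw [← h1]
    ring
  have R1 := congrArg (aeval a) hQ1
  have R2 := congrArg (aeval a) hQ2
  have R3 := congrArg (aeval (a ^ p)) hQ1
  have hPa : aeval a P = 0 := by rw [ha, ← evres, hPc, map_zero]
  have hPap : aeval (a ^ p) P = 0 := by rw [ha, ← map_pow, ← evres, hPcp, map_zero]
  simp only [map_add, map_mul, map_sub, map_pow, aeval_X, map_natCast, map_one, hPa, hPap,
    add_zero, map_ofNat] at R1 R2 R3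
  have e1 : residue A x1 = aeval a (derivative P) := by rw [hx1, evres]
  have e2 : residue A x2 = aeval a (derivative (derivative P)) := by rw [hx2, evres]
  have e3 : residue A y1 = aeval (a ^ p) (derivative P) := by rw [hy1, evres, map_pow]
  rw [e1, e2, e3] at E5
  generalize aeval a (derivative P) = X1 at E5 R1 R2
  generalize aeval a (derivative (derivative P)) = X2 at E5 R2
  generalize aeval (a ^ p) (derivative P) = Y1 at E5 R3
  have hY : Y1 ≠ 0 := by
    intro h0
    rw [h0, zero_mul] at R3
    have : (q : ResidueField A) * (a ^ p) ^ (q - 1) ≠ 0 :=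
      mul_ne_zero hq0 (pow_ne_zero _ (pow_ne_zero _ ha0))
    exact this R3.symm
  have hq2 : 2 ≤ q := hq.two_le
  have hq1 : ((q - 1 : ℕ) : ResidueField A) = (q : ResidueField A) - 1 := by
    rw [Nat.cast_sub (by omega)]
    simp
  have haq1 : a ^ (q - 1) = a ^ (q - 1 - 1) * a := by
    rw [← pow_succ]
    congr 1
    omega
  rw [hq1] at R2
  rw [haq1] at R1
  have E6 : Y1 * a ^ (p - 1 - 1) * (a * X2 + X1) = 0 := by
    linear_combination E5
  have E7 : a * X2 + X1 = 0 := by
    rcases mul_eq_zero.1 E6 with h0 | h0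
    · exact absurd h0 (mul_ne_zero hY (pow_ne_zero _ ha0))
    · exact h0
  have E8 : (q : ResidueField A) * (a ^ (q - 1 - 1) * a) *
      (((q : ResidueField A) - 2) * a - q) = 0 := by
    linear_combination (a - 1) ^ 2 * E7 - (a - 1) * a * R2 + (a + 1) * R1
  have E9 : ((q : ResidueField A) - 2) * a - q = 0 := by
    rcases mul_eq_zero.1 E8 with h0 | h0
    · exact absurd h0 (mul_ne_zero hq0 (mul_ne_zero (pow_ne_zero _ ha0) ha0))
    · exact h0
  exact hne (sub_eq_zero.1 E9)

end Pool.Agent.CYD.H25
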