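import Pool.Agent.Helper85_CYD.St2

/-!
# Module WRO of the squad CYD
-/

set_option autoImplicit false

open Polynomial IsLocalRing

namespace Pool.Agent.CYD.H25

/-- polynomials which vanish at `z` -/
theorem vanish_dvd (p m : ℕ) (hp : p.Prime) (hpm : ¬ p ∣ m) (hm : 1 ≤ m) (K : Type) [Field K]
    [CharZero K] (A : ValuationSubring K) (z : A) (hpA : (p : A) ∈ maximalIdeal A)
    (hz : IsPrimitiveRoot z (p * m)) (H : ℤ[X]) (hH : aeval (z : K) H = 0) :
    (X - 1) ^ (p - 1) ∣ (red (ResidueField A) H).comp (C (residue A z) * X) := by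
  have : Fact p.Prime := ⟨hp⟩
  have hp0 : (p : ResidueField A) = 0 := by
    have := (residue_eq_zero_iff (p : A)).2 hpA
    rwa [map_natCast] at this
  have : CharP (ResidueField A) p := (CharP.charP_iff_prime_eq_zero hp).2 hp0
  have hpos : 0 < p * m := Nat.mul_pos hp.pos (by omega)
  have hzK : IsPrimitiveRoot (z : K) (p * m) :=
    hz.map_of_injective (f := A.subtype) Subtype.coe_injective
  have h1 : cyclotomic (p * m) ℤ ∣ H := by
    rw [cyclotomic_eq_minpoly hzK hpos]
    exact minpoly.isIntegrallyClosed_dvd (hzK.isIntegral hpos) hH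
  have h2 : cyclotomic (p * m) (ResidueField A) = cyclotomic m (ResidueField A) ^ (p - 1) := by
    rw [mul_comm]
    exact cyclotomic_mul_prime_eq_pow_of_not_dvd _ hpm
  have h3 : cyclotomic m (ResidueField A) ^ (p - 1) ∣ red (ResidueField A) H := by
    rw [← h2, ← map_cyclotomic_int]
    exact Polynomial.map_dvd _ h1
  have h4 : eval (residue A z) (cyclotomic m (ResidueField A)) = 0 := by
    have h5 : eval z (cyclotomic (p * m) A) = 0 := hz.isRoot_cyclotomic hpos
    have h6 : eval (residue A z) (cyclotomic (p * m) (ResidueField A)) = 0 := by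
      rw [← map_cyclotomic (p * m) (residue A), eval_map, eval₂_hom, h5, map_zero]
    rw [h2, eval_pow] at h6
    exact eq_zero_of_pow_eq_zero h6
  have h5 : (X - 1 : (ResidueField A)[X]) ∣
      (cyclotomic m (ResidueField A)).comp (C (residue A z) * X) := by
    have : (X - 1 : (ResidueField A)[X]) = X - C 1 := by rw [C_1]
    rw [this, dvd_iff_isRoot, IsRoot, eval_comp]
    simpa using h4
  obtain ⟨Q, hQ⟩ := h3
  rw [hQ, mul_comp, pow_comp]
  exact Dvd.dvd.mul_right (pow_dvd_pow_of_dvd h5 _) _

theorem le_mult {L : Type} [Field L] {f : L[X]} (hf : f ≠ 0) {k : ℕ} (h : (X - 1) ^ k ∣ f) :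
    k ≤ rootMultiplicity 1 f := by
  rw [le_rootMultiplicity_iff hf, C_1]
  exact h

theorem red_comp_sub {L : Type} [Field L] (F G : ℤ[X]) (a : L) :
    (red L (F - G)).comp (C a * X) = (red L F).comp (C a * X) - (red L G).comp (C a * X) := by
  unfold red
  rw [Polynomial.map_sub, sub_comp]

theorem red_comp_mul {L : Type} [Field L] (F G : ℤ[X]) (a : L) :
    (red L (F * G)).comp (C a * X) = (red L F).comp (C a * X) * (red L G).comp (C a * X) := by
  unfold red
  rw [Polynomial.map_mul, mul_comp]

theorem red_comp_C {L : Type} [Field L] (b : ℤ) (a : L) :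
    (red L (C b)).comp (C a * X) = C (b : L) := by
  unfold red
  rw [Polynomial.map_C, C_comp]
  simp

theorem red_comp_Xpow {L : Type} [Field L] (i : ℕ) (a : L) :
    (red L (X ^ i)).comp (C a * X) = C (a ^ i) * X ^ i := by
  unfold red
  rw [Polynomial.map_pow, Polynomial.map_X, pow_comp, X_comp, mul_pow, ← C_pow]

theorem cop_unit {R : Type} [CommRing R] {x y : R} (h : IsUnit y) : IsCoprime x y := by
  obtain ⟨u, rfl⟩ := h
  exact ⟨0, (u⁻¹ : Rˣ), by simp⟩

theorem wro : WroStmt := by
  classical
  intro p m hp hpm hm K _ _ A z w N P μ s i hpA hz hR hs hw hN hP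
  obtain ⟨e, F, G, x, y, hFG, hx, hy, hx0, hy0, hμ, hNP⟩ := hR
  have hp0 : (p : ResidueField A) = 0 := by
    have := (residue_eq_zero_iff (p : A)).2 hpA
    rwa [map_natCast] at this
  have hpK : (p : K) ≠ 0 := by exact_mod_cast hp.ne_zero
  have hxy : x * y ≠ 0 := mul_ne_zero hx0 hy0
  have hmult : rootMultiplicity 1 (x * y) = rootMultiplicity 1 x + rootMultiplicity 1 y :=
    rootMultiplicity_mul hxy
  have hvan := fun H hH => vanish_dvd p m hp hpm hm K A z hpA hz H hH
  have hpos : 0 < p * m := Nat.mul_pos hp.pos (by omega)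
  set a : ResidueField A := residue A z with ha
  have ha0 : a ≠ 0 := by
    intro h0
    have h1 : a ^ (p * m) = 1 := by rw [ha, ← map_pow, hz.pow_eq_one, map_one]
    rw [h0, zero_pow hpos.ne'] at h1
    exact zero_ne_one h1
  have hs0 : (s : ResidueField A) ≠ 0 := by
    rcases hs with rfl | rfl <;> simp
  rcases lt_trichotomy e 0 with he | he | he
  · -- `e < 0`
    exfalso
    obtain ⟨k, hk⟩ : ∃ k : ℕ, e = -((k : ℤ) + 1) := ⟨(-e - 1).toNat, by omega⟩
    have h1 : aeval (z : K) (C s * X ^ i * G - C ((p : ℤ) ^ (k + 1)) * F) = 0 := by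
      have h2 : (p : K) ^ e * (p : K) ^ (k + 1) = 1 := by
        rw [hk, zpow_neg]
        rw [show ((k : ℤ) + 1) = ((k + 1 : ℕ) : ℤ) by push_cast; ring, zpow_natCast]
        exact inv_mul_cancel₀ (pow_ne_zero _ hpK)
      simp only [map_sub, map_mul, aeval_C, map_pow, aeval_X]
      rw [← hFG, hw]
      simp only [algebraMap_int_eq, eq_intCast, Int.cast_natCast]
      linear_combination (-(s : K) * (z : K) ^ i * aeval (z : K) G) * h2
    have h3 := hvan _ h1
    rw [red_comp_sub, red_comp_mul, red_comp_mul, red_comp_mul, red_comp_C, red_comp_C,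
      red_comp_Xpow] at h3
    have h4 : (((p : ℤ) ^ (k + 1) : ℤ) : ResidueField A) = 0 := by
      push_cast
      rw [hp0]
      simp
    rw [h4, C_0, zero_mul, sub_zero] at h3
    have h5 : (X - 1 : (ResidueField A)[X]) ^ (p - 1) ∣
        (red (ResidueField A) G).comp (C a * X) := by
      have hcop : IsCoprime ((X - 1 : (ResidueField A)[X]) ^ (p - 1))
          (C (s : ResidueField A) * (C (a ^ i) * X ^ i)) := by
        refine IsCoprime.mul_right ?_ (IsCoprime.mul_right ?_ ?_)
        · exact cop_unit (isUnit_C.2 (isUnit_iff_ne_zero.2 hs0))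
        · exact cop_unit (isUnit_C.2 (isUnit_iff_ne_zero.2 (pow_ne_zero _ ha0)))
        · refine IsCoprime.pow ⟨-1, 1, ?_⟩
          ring
      exact hcop.dvd_of_dvd_mul_left h3
    have h6 : (X - 1 : (ResidueField A)[X]) ^ (p - 1) ∣ y := (dvd_sub_right h5).1 hy
    have h7 := le_mult hy0 h6
    omega
  · -- `e = 0`
    subst he
    rw [zpow_zero, mul_one] at hFG
    have h1 : aeval (z : K) (F - C s * X ^ i * G) = 0 := by
      simp only [map_sub, map_mul, aeval_C, map_pow, aeval_X]
      rw [← hFG, hw]
      simp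
    have h3 := hvan _ h1
    rw [red_comp_sub, red_comp_mul, red_comp_mul, red_comp_C, red_comp_Xpow] at h3
    have h4 : (X - 1 : (ResidueField A)[X]) ^ (p - 1) ∣
        x - C (s : ResidueField A) * (C (a ^ i) * X ^ i) * y := by
      have h5 := dvd_sub h3 hx
      have h6 := dvd_add h5 (Dvd.dvd.mul_left hy (C (s : ResidueField A) * (C (a ^ i) * X ^ i)))
      have h7 : (red (ResidueField A) F).comp (C a * X) -
          C (s : ResidueField A) * (C (a ^ i) * X ^ i) * (red (ResidueField A) G).comp (C a * X) -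
          ((red (ResidueField A) F).comp (C a * X) - x) +
          C (s : ResidueField A) * (C (a ^ i) * X ^ i) *
            ((red (ResidueField A) G).comp (C a * X) - y) =
          x - C (s : ResidueField A) * (C (a ^ i) * X ^ i) * y := by ring
      rwa [h7] at h6
    obtain ⟨Q, hQ⟩ := h4
    have hp2 : 2 ≤ p := hp.two_le
    obtain ⟨r, hr⟩ : ∃ r, p - 1 = r + 1 := ⟨p - 2, by omega⟩
    rw [hr] at hQ
    have h5 : (X - 1 : (ResidueField A)[X]) ^ r ∣
        X * (derivative x * y - x * derivative y) - C (i : ResidueField A) * (x * y) := by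
      have h6 : x = C (s : ResidueField A) * (C (a ^ i) * X ^ i) * y + (X - 1) ^ (r + 1) * Q := by
        rw [← hQ]; ring
      have h7 : derivative ((X : (ResidueField A)[X]) ^ i) * X = C (i : ResidueField A) * X ^ i := by
        rw [derivative_X_pow]
        rcases Nat.eq_zero_or_pos i with h0 | h0
        · subst h0; simp
        · rw [mul_assoc, ← pow_succ, Nat.sub_add_cancel h0]
      have h8 : derivative x = C (s : ResidueField A) * C (a ^ i) *
          (derivative ((X : (ResidueField A)[X]) ^ i) * y + X ^ i * derivative y) +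
          ((X - 1) ^ r * (C ((r + 1 : ℕ) : ResidueField A) * Q + (X - 1) * derivative Q)) := by
        rw [h6]
        simp only [derivative_add, derivative_mul, derivative_C, zero_mul, zero_add]
        have h9 : derivative ((X - 1 : (ResidueField A)[X]) ^ (r + 1)) =
            C ((r + 1 : ℕ) : ResidueField A) * (X - 1) ^ r := by
          rw [derivative_pow]
          simp
        rw [h9]
        ring
      refine ⟨X * y * (C ((r + 1 : ℕ) : ResidueField A) * Q + (X - 1) * derivative Q) -
        X * (X - 1) * Q * derivative y - C (i : ResidueField A) * (X - 1) * Q * y, ?_⟩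
      rw [h8]
      nth_rewrite 1 [h6]
      nth_rewrite 1 [h6]
      linear_combination (C (s : ResidueField A) * C (a ^ i) * y ^ 2) * h7
    have h6 : (X - 1 : (ResidueField A)[X]) ^ r ∣
        (N - C (i : ResidueField A) * P) * (x * y) := by
      have h7 := Dvd.dvd.mul_left h5 P
      have h8 : P * (X * (derivative x * y - x * derivative y) -
          C (i : ResidueField A) * (x * y)) =
          (N - C (i : ResidueField A) * P) * (x * y) := by
        linear_combination -hNP
      rwa [h8] at h7
    refine ⟨(i : ResidueField A), ?_⟩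
    by_contra hne
    have hne' : N - C (i : ResidueField A) * P ≠ 0 := sub_ne_zero.2 hne
    have hne2 : (N - C (i : ResidueField A) * P) * (x * y) ≠ 0 := mul_ne_zero hne' hxy
    have h7 := le_mult hne2 h6
    rw [rootMultiplicity_mul hne2] at h7
    have h8 : rootMultiplicity 1 (N - C (i : ResidueField A) * P) ≤
        (N - C (i : ResidueField A) * P).natDegree := by
      rw [← count_roots]
      exact (Multiset.count_le_card _ _).trans (card_roots' _)
    have h9 : (N - C (i : ResidueField A) * P).natDegree ≤ max N.natDegree P.natDegree :=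
      (natDegree_sub_le _ _).trans (max_le_max le_rfl (natDegree_C_mul_le _ _))
    rcases max_cases N.natDegree P.natDegree with ⟨h10, _⟩ | ⟨h10, _⟩ <;> omega
  · -- `e > 0`
    exfalso
    obtain ⟨k, hk⟩ : ∃ k : ℕ, e = (k : ℤ) + 1 := ⟨(e - 1).toNat, by omega⟩
    have h1 : aeval (z : K) (F - C ((p : ℤ) ^ (k + 1)) * (C s * X ^ i * G)) = 0 := by
      have h2 : (p : K) ^ e = (p : K) ^ (k + 1) := by
        rw [hk, show ((k : ℤ) + 1) = ((k + 1 : ℕ) : ℤ) by push_cast; ring, zpow_natCast]
      simp only [map_sub, map_mul, aeval_C, map_pow, aeval_X]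
      rw [← hFG, hw, h2]
      simp only [algebraMap_int_eq, eq_intCast, Int.cast_natCast]
      ring
    have h3 := hvan _ h1
    rw [red_comp_sub, red_comp_mul, red_comp_C] at h3
    have h4 : (((p : ℤ) ^ (k + 1) : ℤ) : ResidueField A) = 0 := by
      push_cast
      rw [hp0]
      simp
    rw [h4, C_0, zero_mul, sub_zero] at h3
    have h6 : (X - 1 : (ResidueField A)[X]) ^ (p - 1) ∣ x := (dvd_sub_right h3).1 hx
    have h7 := le_mult hx0 h6
    omega

end Pool.Agent.CYD.H25
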